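import Pool.Agent.H95.NV.Targets4

/-!
# The relative norm of ideals along an embedding (row NRM)
-/

set_option autoImplicit false

open Pool.Agent.H95.NV NumberField

namespace Pool.Agent.H98.NV

section

variable {K F : Type} [Field K] [NumberField K] [Field F] [NumberField F]

/-- the norm of an element along an embedding -/
noncomputable def nK (i : K →+* F) (x : F) : K :=
  letI : Algebra K F := i.toAlgebra
  Algebra.norm K x

/-- the norm of an integer along an embedding -/
noncomputable def nO (i : K →+* F) (x : 𝓞 F) : 𝓞 K :=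
  letI : Algebra K F := i.toAlgebra
  Algebra.intNorm (𝓞 K) (𝓞 F) x

theorem nO_coe (i : K →+* F) (x : 𝓞 F) : (nO i x : K) = nK i (x : F) := by
  letI : Algebra K F := i.toAlgebra
  exact Algebra.algebraMap_intNorm (A := 𝓞 K) (K := K) (L := F) (B := 𝓞 F) x

theorem nrm_eq (i : K →+* F) (A : Ideal (𝓞 F)) :
    nrm i A = Ideal.span (nO i '' (A : Set (𝓞 F))) := by
  letI : Algebra K F := i.toAlgebra
  exact Ideal.relNorm_apply (𝓞 K) A

theorem nrm_ne_bot (i : K →+* F) (A : Ideal (𝓞 F)) (hA : A ≠ ⊥) : nrm i A ≠ ⊥ := by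
  letI : Algebra K F := i.toAlgebra
  intro h
  apply hA
  exact (Ideal.relNorm_eq_bot_iff (R := 𝓞 K) (I := A)).1 h

theorem nK_left (i : K →+* F) (e : F ≃+* F) (x : F) :
    nK ((e : F →+* F).comp i) (e x) = nK i x := by
  unfold nK
  have h := @Algebra.norm_eq_of_equiv_equiv K F K F _ _ _ _ i.toAlgebra
    ((e : F →+* F).comp i).toAlgebra (RingEquiv.refl K) e (by ext y; rfl) x
  exact h.symm

theorem nK_right (i : K →+* F) (c : K ≃+* K) (x : F) :
    c (nK (i.comp (c : K →+* K)) x) = nK i x := by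
  unfold nK
  have h := @Algebra.norm_eq_of_equiv_equiv K F K F _ _ _ _ (i.comp (c : K →+* K)).toAlgebra
    i.toAlgebra c (RingEquiv.refl F) (by ext y; rfl) x
  have h2 := congrArg c h
  rw [RingEquiv.apply_symm_apply] at h2
  exact h2

theorem coe_inj {x y : 𝓞 K} (h : (x : K) = (y : K)) : x = y := RingOfIntegers.ext h

theorem nO_left (i : K →+* F) (e : F ≃+* F) (x : 𝓞 F) :
    nO ((e : F →+* F).comp i) (RingOfIntegers.mapRingHom (e : F →+* F) x) = nO i x := by
  apply coe_inj
  rw [nO_coe, nO_coe, RingOfIntegers.mapRingHom_apply]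
  exact nK_left i e x

theorem nO_right (i : K →+* F) (c : K ≃+* K) (x : 𝓞 F) :
    RingOfIntegers.mapRingHom (c : K →+* K) (nO (i.comp (c : K →+* K)) x) = nO i x := by
  apply coe_inj
  rw [RingOfIntegers.mapRingHom_apply, nO_coe, nO_coe]
  exact nK_right i c x

theorem map_surj (e : F ≃+* F) :
    Function.Surjective (RingOfIntegers.mapRingHom (e : F →+* F)) :=
  (RingOfIntegers.mapRingEquiv e).surjective

end

/-- row NRM -/
theorem pf_NRM : T_NRM := by
  intro K F _ _ _ _ i
  refine ⟨fun A hA => nrm_ne_bot i A hA, ?_, ?_⟩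
  · intro e A
    rw [nrm_eq, nrm_eq]
    congr 1
    ext y
    constructor
    · rintro ⟨x, hx, rfl⟩
      obtain ⟨a, ha, rfl⟩ := (Ideal.mem_map_iff_of_surjective _ (map_surj e)).1 hx
      exact ⟨a, ha, (nO_left i e a).symm⟩
    · rintro ⟨a, ha, rfl⟩
      exact ⟨_, Ideal.mem_map_of_mem _ ha, nO_left i e a⟩
  · intro c A
    rw [nrm_eq, nrm_eq, Ideal.map_span]
    congr 1
    ext y
    constructor
    · rintro ⟨_, ⟨a, ha, rfl⟩, rfl⟩
      exact ⟨a, ha, (nO_right i c a).symm⟩
    · rintro ⟨a, ha, rfl⟩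
      exact ⟨_, ⟨a, ha, rfl⟩, nO_right i c a⟩

end Pool.Agent.H98.NV
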